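import Pool.Agent.X312.CK.Iff

/-!
# Chow-Künneth decompositions and polynomial equations between correspondences

Let `X` be a smooth projective variety of dimension `d` over a field, let `A = CH ^ d(X × X)_ℚ` be the
algebra of correspondences of degree `0` modulo rational equivalence, and let `cl i` be its action on
`H^i(X)`, for a Weil cohomology.

(1) `X` has a Chow-Künneth decomposition if and only if there is a correspondence `a` in `A` which
satisfies **any** polynomial equation `S(a) = 0`, `S ≠ 0`, modulo rational equivalence, and which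
separates the degrees in the sense that there are pairwise coprime polynomials `P_i` with `P_i(a) = 0` on
`H^i(X)`. The equation `S` may have factors which are prime to all `P_i`. For example `a` can be the
graph of an endomorphism of `X` which acts on the cohomology groups with different eigenvalues in
different degrees (a polarized endomorphism, or Frobenius over a finite field).

(2) Suppose that the space of the homologically trivial cycles in `CH ^ d(X × X)_ℚ` has finite
dimension, as it should over all number fields by the conjectures of Beilinson and Bloch. Then `X` has a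
Chow-Künneth decomposition if and only if the Künneth components of its diagonal are algebraic (the
standard conjecture of Künneth type). It is not assumed that the homologically trivial correspondences
are nilpotent.

The proof. If `a` satisfies `S(a) = 0` then one may assume that all `P_i` divide `S`. Write
`S = A_i C_i`, where `A_i` is composed of the prime factors of `P_i` and `C_i` is prime to `P_i`, and
`1 = u_i A_i + v_i C_i`. The elements `e_i = v_i(a) C_i(a)` are orthogonal idempotents with the right
classes, and `1 - ∑ e_i` is an idempotent without cohomology, which is added to `e_0`. For (2) let `a` be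
a correspondence which acts on `H^i(X)` as the multiplication by `i`. The homologically trivial
correspondences `a ^ n ∏ (a - i)` are linearly dependent, so `a` satisfies a polynomial equation.
-/

set_option autoImplicit false

open Polynomial

universe u v w

namespace Pool.Agent.Results.MP_638e8a_ag.PolynomialCriterion

/-- The elements `π i` of the algebra `A` are orthogonal idempotents with sum `1`, and `π i` acts as the
identity on `H i` and as zero on `H j` for `j ≠ i`: a Chow-Künneth decomposition, if `A` is the algebra
of correspondences of degree `0` of a variety and `cl i` its action on the `i`-th cohomology group. -/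
def IsChowKunneth {d : ℕ} {A : Type u} [Ring A] {K : Type v} [Field K]
    {H : Fin (2 * d + 1) → Type w} [∀ i, AddCommGroup (H i)] [∀ i, Module K (H i)]
    (cl : ∀ i, A →+* Module.End K (H i)) (π : Fin (2 * d + 1) → A) : Prop :=
  (∀ i, π i * π i = π i) ∧ (∀ i j, i ≠ j → π i * π j = 0) ∧ ∑ i, π i = 1 ∧
  (∀ i, cl i (π i) = 1) ∧ ∀ i j, i ≠ j → cl j (π i) = 0

/-- **The criterion, and the case of finite rank.** In the intended use `A` is the algebra
`CH ^ d(X × X)_ℚ`, `H i` is the `i`-th cohomology group of `X`, and `cl i` is the action of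
correspondences on it. -/
theorem result (d : ℕ) {A : Type u} [Ring A] [Algebra ℚ A] {K : Type v} [Field K]
    {H : Fin (2 * d + 1) → Type w} [∀ i, AddCommGroup (H i)] [∀ i, Module K (H i)]
    (cl : ∀ i, A →+* Module.End K (H i)) :
    -- (1)
    ((∃ π : Fin (2 * d + 1) → A, IsChowKunneth cl π) ↔
      ∃ (a : A) (S : ℚ[X]) (P : Fin (2 * d + 1) → ℚ[X]), S ≠ 0 ∧ aeval a S = 0 ∧
        (∀ i, P i ≠ 0) ∧ (∀ i j, i ≠ j → IsCoprime (P i) (P j)) ∧
        ∀ i, cl i (aeval a (P i)) = 0) ∧
    -- (2)
    ((∃ s : Finset A, ∀ x : A, (∀ i, cl i x = 0) → x ∈ Submodule.span ℚ (s : Set A)) →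
      ((∃ π : Fin (2 * d + 1) → A, IsChowKunneth cl π) ↔
        ∃ p : Fin (2 * d + 1) → A, (∀ i, cl i (p i) = 1) ∧ ∀ i j, i ≠ j → cl j (p i) = 0)) := by
  refine ⟨⟨?_, ?_⟩, fun hs => ⟨?_, ?_⟩⟩
  · rintro ⟨π, h1, h2, h3, h4, h5⟩
    exact Pool.Agent.X312.CK.poly_of_ck cl π h1 h2 h3 h4 h5
  · rintro ⟨a, S, P, h1, h2, h3, h4, h5⟩
    obtain ⟨π, _, g2, g3, g4, g5, g6⟩ :=
      Pool.Agent.X312.CK.ck_of_poly (0 : Fin (2 * d + 1)) cl a P h3 h4 h5 S h1 h2
    exact ⟨π, g2, g3, g4, g5, g6⟩
  · rintro ⟨π, _, _, _, h4, h5⟩
    exact ⟨π, h4, h5⟩
  · rintro ⟨p, h4, h5⟩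
    have hfin : Module.Finite ℚ (Pool.Agent.X312.CK.trivial' cl) := by
      obtain ⟨s, hs⟩ := hs
      have hle : Pool.Agent.X312.CK.trivial' cl ≤ Submodule.span ℚ (s : Set A) :=
        fun x hx => hs x hx
      have : FiniteDimensional ℚ (Submodule.span ℚ (s : Set A)) :=
        FiniteDimensional.span_finset ℚ s
      exact Submodule.finiteDimensional_of_le hle
    have ht : ∀ i j : Fin (2 * d + 1), i ≠ j → (((i : ℕ) : ℚ)) ≠ ((j : ℕ) : ℚ) :=
      fun i j hij h => hij (Fin.ext (Nat.cast_injective h))
    obtain ⟨π, _, g2, g3, g4, g5, g6⟩ :=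
      Pool.Agent.X312.CK.ck_of_finite (0 : Fin (2 * d + 1)) cl hfin
        (∑ i : Fin (2 * d + 1), algebraMap ℚ A ((i : ℕ) : ℚ) * p i)
        (fun i : Fin (2 * d + 1) => X - C (((i : ℕ) : ℚ))) (fun i => X_sub_C_ne_zero _)
        (fun i j hij => isCoprime_X_sub_C_of_isUnit_sub (sub_ne_zero.2 (ht i j hij)).isUnit)
        (by
          intro i
          have h8 : cl i (∑ j : Fin (2 * d + 1), algebraMap ℚ A ((j : ℕ) : ℚ) * p j) =
              cl i (algebraMap ℚ A ((i : ℕ) : ℚ)) := by
            rw [map_sum, Finset.sum_eq_single i]
            · rw [map_mul, h4, mul_one]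
            · intro j _ hj
              rw [map_mul, h5 j i hj, mul_zero]
            · intro h
              exact absurd (Finset.mem_univ i) h
          rw [map_sub, aeval_X, aeval_C, map_sub, h8, sub_self])
    exact ⟨π, g2, g3, g4, g5, g6⟩

end Pool.Agent.Results.MP_638e8a_ag.PolynomialCriterion
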