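import Pool.Agent.X308.S.MixMain

/-!
# Chow-Kunneth decompositions of varieties dominated by surfaces and products of curves

`𝒱` is a class of smooth projective geometrically irreducible varieties over the field `k` closed
under products (for example all of them), `C` the Chow groups with rational coefficients (in the
form of their formal properties, `IsChowProj`), `H` a Weil cohomology theory (`IsWeilProj`), and
`SurfaceProperties H` records two known facts: homologically trivial divisors on a product `X × Y`
are sums of pull-backs of divisors from `X` and from `Y` (with rational coefficients), and every
surface has a Chow-Kunneth decomposition as constructed by Murre.

A variety `Z` is called tame if it has a Chow-Kunneth decomposition and the compositions of `n`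
homologically trivial self-correspondences of degree zero of `Z` vanish for some `n`. Products of
curves and abelian varieties are tame (Kimura, O'Sullivan).

Theorem. Let `X` be a variety, of any dimension, whose motive is a direct summand of a finite sum of
twists of motives of surfaces and of tame varieties, that is, the diagonal of `X` is a sum of
compositions `X → S → X` of correspondences through surfaces and `X → Z → X` through tame
varieties. Then `X` has a (self-dual) Chow-Kunneth decomposition.

For example, in characteristic zero every smooth projective fourfold with a dominant rational map
from a product of four curves (or from an abelian fourfold) satisfies the hypothesis: it is
dominated by a variety obtained from the product by blowing up centres of dimension at most two, and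
the surfaces which are blown up are arbitrary. The homologically trivial correspondences of `X` are
not known to be nilpotent, and the Chow-Kunneth projectors of the two kinds of motives are not known
to satisfy any relations with respect to each other; the direct summand need not be the sum of a
summand of the motives of surfaces and of a summand of tame motives.

Steps of the proof. (1) A homologically trivial correspondence of degree zero of `X` which is a sum
of correspondences through twists of tame motives is nilpotent; these correspondences form a nil
ideal `N`. (2) Let `I_w` be the sum of the ideal of the correspondences through the pieces of weight
`w` of motives of surfaces and of the ideal of the correspondences through tame motives which act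
on the cohomology only in degree `w`. Then `I_w' ∘ I_w ⊆ N` for `w < w'`, and the diagonal is a sum
of elements of the `I_w`, `0 ≤ w ≤ 2 dim X`, modulo `N`. (3) So there are orthogonal idempotents
`q_w` in the images of the `I_w` modulo `N`, exchanged by the transposition, with sum the diagonal,
and (4) they lift to such idempotents in the ring of correspondences.
-/

set_option autoImplicit false

open CategoryTheory AlgebraicGeometry

universe u v w

namespace Pool.Agent.Results.MP_638e8a_ag.SurfacesAndProductsOfCurves

open Pool.Agent.H914 Pool.Agent.W492.BB Pool.Agent.W550.Corr Pool.Agent.TH133
  Pool.Agent.X308.S

/-- A variety whose motive is a direct summand of a sum of twists of motives of surfaces and of tame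
varieties (such as products of curves) has a self-dual Chow-Kunneth decomposition. -/
theorem result {k : Type u} [Field k] {𝒱 : VarClass k} (C : TheoryData.{u, v, 0} 𝒱 ℚ)
    [IsChowProj C] {K : Type w} [Field K] (H : WeilTheoryData.{u, v, w} C K) [IsWeilProj H]
    (hS : SurfaceProperties H) (X : 𝒱.Obj)
    (hX : dg C X ∈ throughMixed H X) :
    ∃ π : ℕ → C.A (X.prod X), IsCK H X π ∧ IsSelfDual C π :=
  exists_mixed_CK hS (throughMixed_le X hX)

end Pool.Agent.Results.MP_638e8a_ag.SurfacesAndProductsOfCurves
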